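import Mathlib

/-!
# Q2 for `k ≡ ± 2 (mod n)`

For `k = 2` the function `R_2(v)` is `h(v ^ 2 + v)` with `h(x) = 1 / (x (x + 1) ^ 5)`, and
`h(1 + 1 / (Y + 1)) = D(Y) + 1 / Y`, where `D(Y) = Y ^ 5 + Y ^ 3 + Y` is the fifth Dickson
polynomial, `D(s + 1 / s) = s ^ 5 + s ^ (-5)`; moreover `Tr D(Y + 1) = Tr D(Y) + 1` for odd `n`.
-/

set_option autoImplicit false

open Finset

namespace Pool.Agent.Results.MP_2c585b_nt.SecondIdentityTwo

section
variable {F : Type} [Field F] [Fintype F] [DecidableEq F] [Algebra (ZMod 2) F]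

/-- `(-1) ^ Tr x` -/
noncomputable def psi (x : F) : ℤ := (-1 : ℤ) ^ (Algebra.trace (ZMod 2) F x).val

omit [Fintype F] [DecidableEq F] in
theorem psi_add (x y : F) : psi (x + y) = psi x * psi y := by
  unfold psi
  rw [map_add]
  generalize Algebra.trace (ZMod 2) F x = a
  generalize Algebra.trace (ZMod 2) F y = b
  revert a b
  decide

omit [Fintype F] [DecidableEq F] in
theorem psi_zero : psi (0 : F) = 1 := by
  unfold psi
  rw [map_zero]
  rfl

omit [Fintype F] [DecidableEq F] in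
theorem psi_cases (x : F) : psi x = 1 ∨ psi x = -1 := by
  unfold psi
  exact neg_one_pow_eq_or ℤ _

omit [Fintype F] [DecidableEq F] in
theorem psi_equiv (φ : F ≃+* F) (x : F) : psi (φ x) = psi x := by
  have h : ∀ r : ZMod 2, φ (algebraMap (ZMod 2) F r) = algebraMap (ZMod 2) F r := by
    intro r
    exact RingHom.congr_fun (Subsingleton.elim (((φ : F →+* F)).comp (algebraMap (ZMod 2) F))
      (algebraMap (ZMod 2) F)) r
  have h2 := Algebra.trace_eq_of_algEquiv (AlgEquiv.ofRingEquiv (f := φ) h) x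
  unfold psi
  rw [← h2]
  rfl

omit [DecidableEq F] in
theorem psi_pow [CharP F 2] (j : ℕ) (x : F) : psi (x ^ 2 ^ j) = psi x := by
  have h := psi_equiv (iterateFrobeniusEquiv F 2 j) x
  rwa [iterateFrobeniusEquiv_def] at h

omit [DecidableEq F] in
theorem psi_two [CharP F 2] (x : F) : psi (x ^ 2) = psi x := by
  simpa using psi_pow 1 x

omit [DecidableEq F] in
theorem psi_four [CharP F 2] (x : F) : psi (x ^ 4) = psi x := by
  simpa using psi_pow 2 x

omit [DecidableEq F] in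
theorem psi_one {n : ℕ} (hn : Odd n) (hF : Fintype.card F = 2 ^ n) : psi (1 : F) = -1 := by
  have h1 : Module.finrank (ZMod 2) F = n := by
    have h := Module.card_eq_pow_finrank (K := ZMod 2) (V := F)
    rw [← Nat.card_eq_fintype_card, ← Nat.card_eq_fintype_card, Nat.card_zmod] at h
    rw [← Nat.card_eq_fintype_card] at hF
    exact Nat.pow_right_injective (le_refl 2) (h.symm.trans hF)
  have h2 : Algebra.trace (ZMod 2) F 1 = 1 := by
    have h := Algebra.trace_algebraMap (R := ZMod 2) (S := F) (1 : ZMod 2)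
    rw [map_one, h1] at h
    rw [h]
    obtain ⟨m, rfl⟩ := hn
    simp only [nsmul_eq_mul, mul_one]
    push_cast
    have : (2 : ZMod 2) = 0 := rfl
    rw [this]; simp
  unfold psi
  rw [h2]
  rfl

theorem sum_psi (h1 : psi (1 : F) = -1) : ∑ x : F, psi x = 0 := by
  have h : ∑ x : F, psi (x + 1) = ∑ x : F, psi x :=
    Equiv.sum_comp (Equiv.addRight (1 : F)) psi
  simp only [psi_add, h1, mul_neg, mul_one, Finset.sum_neg_distrib] at h
  omega

variable [CharP F 2]

theorem add_self' (x : F) : x + x = 0 := CharTwo.add_self_eq_zero x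

theorem count (h1 : psi (1 : F) = -1) (x : F) :
    ((univ.filter fun v : F => v ^ 2 + v = x).card : ℤ) = 1 + psi x := by
  have hle : ∀ x : F, ((univ.filter fun v : F => v ^ 2 + v = x).card : ℤ) ≤ 1 + psi x := by
    intro x
    by_cases h : ∃ v : F, v ^ 2 + v = x
    · obtain ⟨v, hv⟩ := h
      have h2 : (univ.filter fun w : F => w ^ 2 + w = x) ⊆ {v, v + 1} := by
        intro w hw
        rw [mem_filter] at hw
        have h3 : (w + v) * (w + v + 1) = 0 := by
          have : (w + v) * (w + v + 1) = (w ^ 2 + w) + (v ^ 2 + v) + (w * v + w * v) := by ring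
          rw [this, hw.2, hv, add_self', add_self', add_zero]
        rw [mem_insert, mem_singleton]
        rcases mul_eq_zero.1 h3 with h | h
        · left
          exact CharTwo.add_eq_zero.1 h
        · right
          have : w + (v + 1) = 0 := by rw [← add_assoc]; exact h
          exact CharTwo.add_eq_zero.1 this
      have h4 : psi x = 1 := by
        rw [← hv, psi_add, psi_two]
        rcases psi_cases v with h | h <;> rw [h] <;> norm_num
      have h5 := (card_le_card h2).trans (card_le_two)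
      rw [h4]
      have : ((univ.filter fun w : F => w ^ 2 + w = x).card : ℤ) ≤ 2 := by exact_mod_cast h5
      linarith
    · have h2 : (univ.filter fun v : F => v ^ 2 + v = x) = ∅ := by
        rw [filter_eq_empty_iff]
        intro v _ hv
        exact h ⟨v, hv⟩
      rw [h2, card_empty]
      rcases psi_cases x with h | h <;> rw [h] <;> norm_num
  have hs : ∑ x : F, ((univ.filter fun v : F => v ^ 2 + v = x).card : ℤ) =
      ∑ x : F, (1 + psi x) := by
    rw [sum_add_distrib, sum_psi h1, add_zero]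
    have := Finset.card_eq_sum_card_fiberwise (f := fun v : F => v ^ 2 + v) (s := univ)
      (t := univ) (fun x _ => by simp)
    rw [← Nat.cast_sum, ← this]
    simp
  exact (Finset.sum_eq_sum_iff_of_le (fun i _ => hle i)).1 hs x (mem_univ x)

theorem sum_AS (h1 : psi (1 : F) = -1) (g : F → ℤ) :
    ∑ v : F, g (v ^ 2 + v) = ∑ x : F, g x * (1 + psi x) := by
  rw [← Finset.sum_fiberwise_of_maps_to (s := univ) (t := univ) (g := fun v : F => v ^ 2 + v)
    (fun x _ => mem_univ _)]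
  refine sum_congr rfl fun x _ => ?_
  rw [← count h1 x, sum_congr rfl (g := fun _ => g x)]
  · rw [sum_const, nsmul_eq_mul, mul_comm]
  · intro v hv
    rw [mem_filter] at hv
    rw [hv.2]

/-- the fifth Dickson polynomial -/
def D (Y : F) : F := Y ^ 5 + Y ^ 3 + Y

theorem D_add_one (Y : F) : D (Y + 1) = D Y + (Y ^ 4 + Y ^ 2 + 1) := by
  unfold D
  have h2 : (2 : F) = 0 := CharTwo.two_eq_zero
  linear_combination (2 * Y ^ 4 + 5 * Y ^ 3 + 6 * Y ^ 2 + 4 * Y + 1) * h2

theorem psi_D (h1 : psi (1 : F) = -1) (Y : F) : psi (D (Y + 1)) = - psi (D Y) := by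
  rw [D_add_one, psi_add, psi_add, psi_add, psi_four, psi_two, h1]
  rcases psi_cases Y with h | h <;> rw [h] <;> ring

theorem D_inv (v : F) : D ((v ^ 2 + v)⁻¹) = (v⁻¹ + 1) ^ 5 + ((v⁻¹ + 1)⁻¹) ^ 5 := by
  have h2 : (2 : F) = 0 := CharTwo.two_eq_zero
  by_cases h0 : v = 0
  · subst h0
    unfold D
    norm_num
    exact h2.symm
  by_cases h1 : v = 1
  · subst h1
    have h3 : (1 : F) + 1 = 0 := add_self' 1
    simp only [one_pow, inv_one, h3, inv_zero, D]
    simp
  have h3 : v + 1 ≠ 0 := fun h => h1 (CharTwo.add_eq_zero.1 h)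
  have h4 : v⁻¹ + 1 = (v + 1) / v := by field_simp; ring
  have h5 : v ^ 2 + v = v * (v + 1) := by ring
  rw [h4, h5]
  unfold D
  rw [inv_div]
  field_simp
  linear_combination (-(5 * v + 22 * v ^ 2 + 59 * v ^ 3 + 104 * v ^ 4 + 124 * v ^ 5 + 102 * v ^ 6 +
    58 * v ^ 7 + 22 * v ^ 8 + 5 * v ^ 9 + v ^ 10)) * h2

/-- `1 / f_2`, where `f_2(x) = x (x + 1) ^ 5` -/
def h (x : F) : F := (x * (x + 1) ^ 5)⁻¹

theorem h_eq (Y : F) : h (1 + (Y + 1)⁻¹) = D Y + Y⁻¹ := by
  have h2 : (2 : F) = 0 := CharTwo.two_eq_zero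
  by_cases h0 : Y = 0
  · subst h0
    have h3 : (1 : F) + 1 = 0 := add_self' 1
    simp only [h, D, zero_add, inv_one, h3, inv_zero]
    simp
  by_cases h1 : Y = 1
  · subst h1
    have h3 : (1 : F) + 1 = 0 := add_self' 1
    simp only [h, D, h3, inv_zero, add_zero, one_pow, inv_one, zero_add]
    simp
  have h3 : Y + 1 ≠ 0 := fun h => h1 (CharTwo.add_eq_zero.1 h)
  have h4 : 1 + (Y + 1)⁻¹ = Y / (Y + 1) := by
    field_simp
    linear_combination h2
  have h5 : Y / (Y + 1) + 1 = 1 / (Y + 1) := by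
    field_simp
    linear_combination Y * h2
  rw [h, h4, h5]
  unfold D
  field_simp
  linear_combination (3 * Y + 7 * Y ^ 2 + 10 * Y ^ 3 + 7 * Y ^ 4 + 3 * Y ^ 5) * h2

theorem sum_D (h1 : psi (1 : F) = -1) : ∑ Y : F, psi (D Y) = 0 := by
  have h : ∑ x : F, psi (D (x + 1)) = ∑ x : F, psi (D x) :=
    Equiv.sum_comp (Equiv.addRight (1 : F)) (fun x => psi (D x))
  simp only [psi_D h1, Finset.sum_neg_distrib] at h
  omega

theorem sum_E (h1 : psi (1 : F) = -1) : ∑ Y : F, psi (D Y + Y⁻¹ + (Y + 1)⁻¹) = 0 := by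
  have h : ∑ x : F, psi (D (x + 1) + (x + 1)⁻¹ + (x + 1 + 1)⁻¹) =
      ∑ x : F, psi (D x + x⁻¹ + (x + 1)⁻¹) :=
    Equiv.sum_comp (Equiv.addRight (1 : F)) (fun x => psi (D x + x⁻¹ + (x + 1)⁻¹))
  have h3 : ∀ x : F, psi (D (x + 1) + (x + 1)⁻¹ + (x + 1 + 1)⁻¹) =
      - psi (D x + x⁻¹ + (x + 1)⁻¹) := by
    intro x
    have : x + 1 + 1 = x := by rw [add_assoc, add_self', add_zero]
    rw [this, psi_add, psi_add, psi_D h1, psi_add, psi_add]
    ring
  simp only [h3, Finset.sum_neg_distrib] at h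
  omega

theorem fifth {n : ℕ} (hn : Odd n) (hF : Fintype.card F = 2 ^ n) :
    Function.Bijective fun x : F => x ^ 5 := by
  have hc : Nat.Coprime (Fintype.card Fˣ) 5 := by
    rw [Fintype.card_units, hF, Nat.coprime_comm, Nat.Prime.coprime_iff_not_dvd (by norm_num)]
    obtain ⟨m, rfl⟩ := hn
    intro hd
    have h4 : 1 ≤ 2 ^ (2 * m + 1) := Nat.one_le_two_pow
    have h5 : 2 ^ (2 * m + 1) % 5 = 1 := by
      generalize 2 ^ (2 * m + 1) = t at hd h4 ⊢
      omega
    rw [pow_succ, pow_mul, Nat.mul_mod, Nat.pow_mod] at h5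
    norm_num at h5
    rcases Nat.even_or_odd m with ⟨j, rfl⟩ | ⟨j, rfl⟩
    · rw [← two_mul, pow_mul, Nat.mul_mod, Nat.pow_mod] at h5
      norm_num at h5
    · rw [pow_succ, pow_mul, Nat.mul_mod, Nat.mul_mod (_ ^ j), Nat.pow_mod] at h5
      norm_num at h5
  rw [← Finite.injective_iff_bijective]
  intro x y hxy
  simp only at hxy
  by_cases hx : x = 0
  · subst hx
    have : y ^ 5 = 0 := by rw [← hxy]; simp
    exact (pow_eq_zero_iff (by norm_num)).1 this |>.symm
  by_cases hy : y = 0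
  · subst hy
    have : x ^ 5 = 0 := by rw [hxy]; simp
    exact (pow_eq_zero_iff (by norm_num)).1 this
  have h1 : (Units.mk0 x hx) ^ 5 = (Units.mk0 y hy) ^ 5 := by
    ext
    simpa using hxy
  have hc' : (Nat.card Fˣ).Coprime 5 := by rwa [Nat.card_eq_fintype_card]
  have h2 := (powCoprime hc').injective (a₁ := Units.mk0 x hx) (a₂ := Units.mk0 y hy) h1
  exact congrArg Units.val h2

theorem sum_K {n : ℕ} (hn : Odd n) (hF : Fintype.card F = 2 ^ n) :
    ∑ Y : F, psi (D Y + Y⁻¹) = ∑ x : F, psi (x + x⁻¹) := by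
  have h1 := psi_one hn hF
  have e1 := sum_AS h1 (fun x : F => psi (D x⁻¹))
  have e2 : ∑ v : F, psi (D ((v ^ 2 + v)⁻¹)) = ∑ s : F, psi (s ^ 5 + (s⁻¹) ^ 5) := by
    rw [← Equiv.sum_comp ((Equiv.inv F).trans (Equiv.addRight (1 : F)))
      (fun s => psi (s ^ 5 + (s⁻¹) ^ 5))]
    refine sum_congr rfl fun v _ => ?_
    rw [D_inv]
    rfl
  have e3 : ∑ s : F, psi (s ^ 5 + (s⁻¹) ^ 5) = ∑ x : F, psi (x + x⁻¹) := by
    rw [← Equiv.sum_comp (Equiv.ofBijective _ (fifth hn hF)) (fun x => psi (x + x⁻¹))]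
    refine sum_congr rfl fun v _ => ?_
    simp [inv_pow]
  have e4 : ∑ x : F, psi (D x⁻¹) * (1 + psi x) = ∑ Y : F, psi (D Y + Y⁻¹) := by
    rw [← Equiv.sum_comp (Equiv.inv F) (fun x => psi (D x⁻¹) * (1 + psi x))]
    simp only [Equiv.inv_apply, inv_inv, mul_add, mul_one, sum_add_distrib, sum_D h1, zero_add,
      psi_add]
  rw [← e4, ← e1, e2, e3]

/-- `R_2` -/
def R2 (v : F) : F := (v ^ 4 + 1) * v ^ 4 * ((v ^ 4 + v) ^ 5)⁻¹

theorem R2_eq (v : F) : R2 v = h (v ^ 2 + v) := by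
  have h2 : (2 : F) = 0 := CharTwo.two_eq_zero
  by_cases h0 : v = 0
  · subst h0
    simp [R2, h]
  by_cases h1 : v = 1
  · subst h1
    have h3 : (1 : F) + 1 = 0 := add_self' 1
    simp [R2, h, h3]
  have h3 : v + 1 ≠ 0 := fun h => h1 (CharTwo.add_eq_zero.1 h)
  have h4 : v ^ 4 + v = (v * (v + 1)) * (v ^ 2 + v + 1) := by
    linear_combination (- v ^ 3 - v ^ 2) * h2
  have h5 : v ^ 4 + 1 = (v + 1) ^ 4 := by
    linear_combination (- 2 * v ^ 3 - 3 * v ^ 2 - 2 * v) * h2
  have h6 : v ^ 2 + v = v * (v + 1) := by ring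
  rw [R2, h, h4, h5, h6, mul_pow, mul_inv, mul_inv]
  field_simp

theorem sum_R2 {n : ℕ} (hn : Odd n) (hF : Fintype.card F = 2 ^ n) :
    ∑ v : F, psi (R2 v) = ∑ x : F, psi (x + x⁻¹) := by
  have h1 := psi_one hn hF
  have e0 : ∑ v : F, psi (R2 v) = ∑ v : F, psi (h (v ^ 2 + v)) :=
    sum_congr rfl fun v _ => by rw [R2_eq]
  have e1 := sum_AS h1 (fun x : F => psi (h x))
  have e2 : ∑ x : F, psi (h x) * (1 + psi x) =
      ∑ Y : F, psi (D Y + Y⁻¹) * (1 + psi (1 + (Y + 1)⁻¹)) := by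
    rw [← Equiv.sum_comp ((Equiv.addRight (1 : F)).trans ((Equiv.inv F).trans
      (Equiv.addLeft (1 : F)))) (fun x => psi (h x) * (1 + psi x))]
    refine sum_congr rfl fun Y _ => ?_
    rw [← h_eq]
    rfl
  rw [e0, e1, e2, ← sum_K hn hF]
  have e3 := sum_E h1
  have e4 : ∀ Y : F, psi (D Y + Y⁻¹) * (1 + psi (1 + (Y + 1)⁻¹)) =
      psi (D Y + Y⁻¹) - psi (D Y + Y⁻¹ + (Y + 1)⁻¹) := by
    intro Y
    rw [psi_add 1, h1, psi_add (D Y + Y⁻¹)]
    ring
  simp only [e4, sum_sub_distrib, e3, sub_zero]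

omit [CharP F 2] in
theorem sum_units (f : F → ℤ) : ∑ x : Fˣ, f x = ∑ x : F, f x - f 0 := by
  have h1 : ∑ x : Fˣ, f x = ∑ x ∈ univ.filter (fun a : F => a ≠ 0), f x := by
    symm
    refine Finset.sum_bij' (fun y hy => Units.mk0 y (by simpa using hy)) (fun y _ => (y : F))
      ?_ ?_ ?_ ?_ ?_
    · intro y hy; simp
    · intro y _; simp
    · intro y hy; simp
    · intro y _; ext; simp
    · intro y hy; simp
  rw [h1, Finset.filter_ne', ← Finset.sum_erase_add _ _ (mem_univ (0 : F))]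
  ring

end

/-- The function `R_k(v) = (v ^ (2 ^ k) + 1) v ^ (2 ^ k) / (v ^ (2 ^ k) + v) ^ (2 ^ k + 1)`, with
`1 / 0 = 0`. -/
def R {F : Type} [Field F] (k : ℕ) (v : F) : F :=
  ((v ^ 2 ^ k + 1) * v ^ 2 ^ k) / (v ^ 2 ^ k + v) ^ (2 ^ k + 1)

/-- **Q2 holds for `k ≡ 2` and `k ≡ -2 (mod n)`**: let `n` be odd, let `F` be a field with `2 ^ n`
elements and let `k` be congruent to `2` or to `-2` modulo `n` (so that `k` is coprime to `n`). Then
`∑_{x ≠ 0} (-1)^{Tr(x + x⁻¹)} = ∑_{v ≠ 0} (-1)^{Tr(R_k(v))}`. -/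
theorem result (F : Type) [Field F] [Fintype F] [DecidableEq F] [Algebra (ZMod 2) F] (n k : ℕ)
    (hn : Odd n) (hF : Fintype.card F = 2 ^ n) (hk : k ≡ 2 [MOD n] ∨ k + 2 ≡ 0 [MOD n]) :
    ∑ x : Fˣ, (-1 : ℤ) ^ (Algebra.trace (ZMod 2) F ((x : F) + (x : F)⁻¹)).val =
      ∑ v : Fˣ, (-1 : ℤ) ^ (Algebra.trace (ZMod 2) F (R k (v : F))).val := by
  have : CharP F 2 := charP_of_injective_algebraMap (algebraMap (ZMod 2) F).injective 2
  have hpow : ∀ (x : F) (j : ℕ), x ^ 2 ^ (n * j) = x := by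
    intro x j
    rw [pow_mul, ← hF]
    induction j with
    | zero => simp
    | succ j ih => rw [pow_succ, pow_mul, ih, FiniteField.pow_card]
  have hmod : ∀ (x : F) (a b : ℕ), a ≡ b [MOD n] → x ^ 2 ^ a = x ^ 2 ^ b := by
    intro x a b hab
    have h1 := Nat.div_add_mod a n
    have h2 := Nat.div_add_mod b n
    have h3 : a % n = b % n := hab
    rw [← h1, ← h2, h3, pow_add, pow_mul, hpow, pow_add, pow_mul, hpow]
  have key : ∑ v : F, psi (R k v) = ∑ v : F, psi (R2 v) := by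
    rcases hk with hk | hk
    · refine sum_congr rfl fun v _ => ?_
      have h1 : ∀ x : F, x ^ 2 ^ k = x ^ 4 := fun x => by rw [hmod x k 2 hk]; norm_num
      have h2 : (v ^ 4 + v) ^ (2 ^ k + 1) = (v ^ 4 + v) ^ 5 := by
        rw [pow_succ, h1]; ring
      rw [R, h1, h2, R2, div_eq_mul_inv]
    · have h0 : ∀ x : F, (x ^ 2 ^ k) ^ 4 = x := by
        intro x
        have := hmod x (k + 2) 0 hk
        rw [pow_add, pow_mul] at this
        simpa using this
      have hb : Function.Bijective fun v : F => v ^ 2 ^ k := by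
        rw [← Finite.injective_iff_bijective]
        intro x y hxy
        simp only at hxy
        rw [← h0 x, ← h0 y, hxy]
      rw [← Equiv.sum_comp (Equiv.ofBijective _ hb) (fun v => psi (R2 v))]
      refine sum_congr rfl fun v _ => ?_
      simp only [Equiv.ofBijective_apply]
      rw [← psi_four (R k v)]
      congr 1
      rw [R, R2, h0 v, div_pow, div_eq_mul_inv, mul_pow, h0 v]
      have h4 : ∀ x y : F, (x + y) ^ 4 = x ^ 4 + y ^ 4 := fun x y => by
        have := add_pow_char_pow (p := 2) (n := 2) x y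
        norm_num at this
        exact this
      have h6 : ∀ z : F, (z ^ (2 ^ k + 1)) ^ 4 = z ^ 5 := fun z => by
        rw [pow_succ z, mul_pow, h0]; ring
      have h5 : ((v ^ 2 ^ k + v) ^ (2 ^ k + 1)) ^ 4 = (v + v ^ 2 ^ k) ^ 5 := by
        rw [h6, add_comm v]
      rw [h5, h4, one_pow, h0 v]
  have e1 := sum_units (F := F) (fun x => psi (x + x⁻¹))
  have e2 := sum_units (F := F) (fun x => psi (R k x))
  have e3 : psi (R k (0 : F)) = 1 := by
    have : R k (0 : F) = 0 := by simp [R]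
    rw [this, psi_zero]
  have e4 : psi ((0 : F) + 0⁻¹) = 1 := by
    rw [inv_zero, add_zero, psi_zero]
  simp only [e3] at e2
  simp only [e4] at e1
  rw [key, sum_R2 hn hF, ← e1] at e2
  exact e2.symm

end Pool.Agent.Results.MP_2c585b_nt.SecondIdentityTwo
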